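import Mathlib

set_option autoImplicit false

universe u v

namespace Pool.Agent.Results.MP_836feb_al.NonFreeRetracts

/-- The free Burnside group of exponent `n` on the set `X` of free generators:
the free group on `X` modulo the normal subgroup generated by all `n`-th powers. -/
abbrev FreeBurnside (X : Type u) (n : ℕ) : Type u :=
  FreeGroup X ⧸ Subgroup.normalClosure (Set.range fun g : FreeGroup X => g ^ n)

/-- A subgroup `H` of `G` is a retract of `G` if some homomorphism `G → H` restricts to the
identity on `H`. -/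
def IsRetract {G : Type u} [Group G] (H : Subgroup G) : Prop :=
  ∃ ρ : G →* H, ∀ h : H, ρ (h : G) = h

/-- The free generator of the free Burnside group attached to `x`. -/
def gen {X : Type u} (n : ℕ) (x : X) : FreeBurnside X n :=
  QuotientGroup.mk (FreeGroup.of x)

theorem pow_exponent {X : Type u} {n : ℕ} (g : FreeBurnside X n) : g ^ n = 1 := by
  obtain ⟨w, rfl⟩ := QuotientGroup.mk_surjective g
  rw [← QuotientGroup.mk_pow, QuotientGroup.eq_one_iff]
  exact Subgroup.subset_normalClosure ⟨w, rfl⟩

/-- The universal property of the free Burnside group. -/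
def liftHom {X : Type u} {n : ℕ} {G : Type v} [Group G] (hG : ∀ g : G, g ^ n = 1) (f : X → G) :
    FreeBurnside X n →* G :=
  QuotientGroup.lift _ (FreeGroup.lift f) (by
    intro w hw
    have h : Subgroup.normalClosure (Set.range fun g : FreeGroup X => g ^ n) ≤
        (FreeGroup.lift f).ker := by
      apply Subgroup.normalClosure_le_normal
      rintro _ ⟨g, rfl⟩
      simp [MonoidHom.mem_ker, hG]
    exact h hw)

theorem liftHom_gen {X : Type u} {n : ℕ} {G : Type v} [Group G] (hG : ∀ g : G, g ^ n = 1)
    (f : X → G) (x : X) : liftHom hG f (gen n x) = f x := by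
  show FreeGroup.lift f (FreeGroup.of x) = f x
  simp

/-- A free generator has order exactly `n`: its smaller positive powers are nontrivial. -/
theorem gen_pow_ne_one {X : Type u} {n : ℕ} (x : X) {j : ℕ} (h0 : 0 < j) (hj : j < n) :
    (gen n x) ^ j ≠ 1 := by
  intro h
  have hG : ∀ g : Multiplicative (ZMod n), g ^ n = 1 := by
    intro g
    have h1 : (n : ℕ) • (Multiplicative.toAdd g) = 0 := by simp
    exact h1
  have h1 : (liftHom hG (fun _ : X => Multiplicative.ofAdd (1 : ZMod n))) (gen n x ^ j) = 1 := by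
    rw [h]; exact MonoidHom.map_one _
  rw [MonoidHom.map_pow, liftHom_gen] at h1
  have h2 : (j : ℕ) • (1 : ZMod n) = 0 := h1
  rw [nsmul_eq_mul, mul_one, ZMod.natCast_eq_zero_iff] at h2
  exact absurd (Nat.le_of_dvd h0 h2) (by omega)

theorem subsingleton_of_isEmpty {X : Type u} [IsEmpty X] (n : ℕ) :
    Subsingleton (FreeBurnside X n) := by
  constructor
  intro a b
  obtain ⟨w, rfl⟩ := QuotientGroup.mk_surjective a
  obtain ⟨w', rfl⟩ := QuotientGroup.mk_surjective b
  rw [Subsingleton.elim w w']

/-- If `k, l > 1` are coprime, every free Burnside group of exponent `n = k * l` and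
rank at least one has a retract that is not a free Burnside group of exponent `n`. -/
theorem nonfree_retract {k l n : ℕ} (hk : 1 < k) (hl : 1 < l) (hkl : Nat.Coprime k l)
    (hn : n = k * l) (X : Type u) [hX : Nonempty X] :
    ∃ H : Subgroup (FreeBurnside X n), IsRetract H ∧
      ∀ Y : Type v, IsEmpty (H ≃* FreeBurnside Y n) := by
  obtain ⟨x⟩ := hX
  have hkn : k < n := by rw [hn]; nlinarith
  have hln : l < n := by rw [hn]; nlinarith
  obtain ⟨c, hc⟩ : ∃ c : ℕ, l * c ≡ 1 [MOD k] := by
    obtain ⟨c, _, hc⟩ := Nat.exists_mul_mod_eq_one_of_coprime hkl.symm hk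
    exact ⟨c, by rw [Nat.ModEq, hc, Nat.mod_eq_of_lt hk]⟩
  let a : FreeBurnside X n := gen n x ^ l
  let H : Subgroup (FreeBurnside X n) := Subgroup.zpowers a
  have ha : a ∈ H := Subgroup.mem_zpowers a
  have hak : a ^ k = 1 := by
    show (gen n x ^ l) ^ k = 1
    rw [← pow_mul, mul_comm l k, ← hn]
    exact pow_exponent _
  have hH : ∀ h : H, h ^ k = 1 := by
    rintro ⟨h, hh⟩
    obtain ⟨z, rfl⟩ := Subgroup.mem_zpowers_iff.mp hh
    apply Subtype.ext
    show (a ^ z) ^ k = 1
    rw [← zpow_natCast, ← zpow_mul, mul_comm, zpow_mul, zpow_natCast, hak, one_zpow]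
  have hHn : ∀ h : H, h ^ n = 1 := by
    intro h
    have h1 : h ^ (k * l) = 1 := by rw [pow_mul, hH, one_pow]
    have h2 : h ^ n = h ^ (k * l) := congrArg (fun j : ℕ => h ^ j) hn
    rw [h2, h1]
  let ρ : FreeBurnside X n →* H := liftHom hHn (fun _ => (⟨a, ha⟩ : H) ^ c)
  have hρa : ρ a = ⟨a, ha⟩ := by
    show ρ (gen n x ^ l) = ⟨a, ha⟩
    rw [map_pow, liftHom_gen, ← pow_mul, mul_comm c l]
    have h1 : (⟨a, ha⟩ : H) ^ (l * c) = (⟨a, ha⟩ : H) ^ 1 := pow_eq_pow_of_modEq hc (hH _)
    rw [h1, pow_one]
  refine ⟨H, ⟨ρ, ?_⟩, ?_⟩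
  · rintro ⟨h, hh⟩
    obtain ⟨z, rfl⟩ := Subgroup.mem_zpowers_iff.mp hh
    show ρ (a ^ z) = _
    rw [map_zpow, hρa]
    apply Subtype.ext
    simp
  · intro Y
    constructor
    intro e
    rcases isEmpty_or_nonempty Y with hY | ⟨⟨y⟩⟩
    · have := subsingleton_of_isEmpty (X := Y) n
      have h1 : (⟨a, ha⟩ : H) = 1 := by
        apply e.injective
        exact Subsingleton.elim _ _
      have h2 : a = 1 := congrArg Subtype.val h1
      exact gen_pow_ne_one x (by omega) hln h2
    · have h1 : (gen n y) ^ k = 1 := by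
        have h2 := hH (e.symm (gen n y))
        have h3 := congrArg e h2
        rwa [map_pow, MulEquiv.apply_symm_apply, map_one] at h3
      exact gen_pow_ne_one y (by omega) hkn h1

/-- Every exponent `n > 1` that is not a prime power is a product of two coprime factors
greater than one. -/
theorem exists_coprime_factorisation {n : ℕ} (hn : 1 < n) (hp : ¬ IsPrimePow n) :
    ∃ k l : ℕ, 1 < k ∧ 1 < l ∧ Nat.Coprime k l ∧ n = k * l := by
  have hn0 : n ≠ 0 := by omega
  have hpr : (n.minFac).Prime := Nat.minFac_prime (by omega)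
  refine ⟨ordProj[n.minFac] n, ordCompl[n.minFac] n, ?_, ?_, ?_, ?_⟩
  · have : 0 < n.factorization n.minFac := hpr.factorization_pos_of_dvd hn0 (Nat.minFac_dvd n)
    exact Nat.one_lt_pow (by omega) hpr.one_lt
  · have h0 : 0 < ordCompl[n.minFac] n := Nat.ordCompl_pos _ hn0
    rcases Nat.lt_or_ge 1 (ordCompl[n.minFac] n) with h | h
    · exact h
    · exfalso
      have h1 : ordCompl[n.minFac] n = 1 := by omega
      apply hp
      have h2 := Nat.ordProj_mul_ordCompl_eq_self n n.minFac
      rw [h1, mul_one] at h2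
      rw [isPrimePow_nat_iff]
      exact ⟨n.minFac, n.factorization n.minFac, hpr,
        hpr.factorization_pos_of_dvd hn0 (Nat.minFac_dvd n), h2⟩
  · exact (Nat.coprime_ordCompl hpr hn0).pow_left _
  · exact (Nat.ordProj_mul_ordCompl_eq_self n n.minFac).symm

/-- Beyond every threshold there are odd exponents that are not prime powers, and for every
exponent `n > 1` that is not a prime power, each free Burnside group of exponent `n` and rank at
least one (finite or infinite) has a retract isomorphic to no free Burnside group of exponent `n`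
of any rank (rank zero included). -/
theorem result :
    (∀ N : ℕ, ∃ n : ℕ, N ≤ n ∧ Odd n ∧ ¬ IsPrimePow n) ∧
    ∀ n : ℕ, 1 < n → ¬ IsPrimePow n → ∀ (X : Type u) [Nonempty X],
      ∃ H : Subgroup (FreeBurnside X n), IsRetract H ∧
        ∀ Y : Type v, IsEmpty (H ≃* FreeBurnside Y n) := by
  constructor
  · intro N
    refine ⟨3 * (6 * N + 5), by omega, by rw [Nat.odd_iff]; omega, ?_⟩
    intro h
    have hc : Nat.Coprime 3 (6 * N + 5) := by
      rw [Nat.Prime.coprime_iff_not_dvd Nat.prime_three]
      omega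
    rcases (hc.isPrimePow_dvd_mul h).mp dvd_rfl with h3 | h3
    · have := Nat.le_of_dvd (by omega) h3
      omega
    · have := Nat.le_of_dvd (by omega) h3
      omega
  · intro n hn hp X _
    obtain ⟨k, l, hk, hl, hkl, hnkl⟩ := exists_coprime_factorisation hn hp
    exact nonfree_retract hk hl hkl hnkl X

end Pool.Agent.Results.MP_836feb_al.NonFreeRetracts
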